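import Pool.Agent.NH18.SC.ApFin
import Pool.Agent.NH18.SC.Max
import Pool.Agent.NH18.SC.Jump
import Pool.Agent.NH18.SC.ApBase

/-!
# Primes in arithmetic progressions along a divisor chain up to `x / log x`

For every chain `q 0 ∣ q 1 ∣ ... ∣ q r` of moduli with `φ(q r) ≤ x / log x` and for almost all primes
`p ≤ x`: the number of primes `≤ x` in the class of `p` modulo `q i` has the right order for all `i`
simultaneously, and multiplied by `φ(q i)` it is constant up to a factor `1 ± η` along the whole chain, outside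
of a bounded number of indices; the bound does not depend on the chain, on its length or on `x`.

Proof: the primes have bounded energy modulo `q r` (sieve upper bound for pairs of primes), which
decreases along the chain of coarser and coarser partitions of the reduced residues; a maximal
inequality and a jump inequality for conditional expectations.
-/

namespace Pool.Agent.Results.MP_848d44_nt.DivisorChains

/-- The number of primes `p ≤ x` not dividing `Q` with `p ≡ a` modulo `q`. -/
def primeCount (x Q q a : ℕ) : ℕ :=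
  ((Finset.Icc 1 x).filter (fun p => p.Prime ∧ p.Coprime Q ∧ p % q = a % q)).card

/-- **The classes of `p` modulo the members of the chain `q 0, ..., q r` have regular numbers of primes.**
(1) For all `i ≤ r` the number of primes `≤ x` (not dividing `q r`) congruent to `p` modulo `q i`, times
`φ(q i)`, lies between `ε / C` and `C / ε` times `x / log x`.
(2) There is a set `B` of at most `C / (ε ^ 2 η ^ 2)` indices such that these products agree up to a
factor `1 ± η` for any two indices `i ≤ i'` with no element of `B` in `(i, i']`. -/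
def Regular (C : ℝ) (x : ℕ) (q : ℕ → ℕ) (r : ℕ) (ε η : ℝ) (p : ℕ) : Prop :=
  (∀ i ≤ r, ε / C * (x / Real.log x) ≤ primeCount x (q r) (q i) p * (q i).totient ∧
    (primeCount x (q r) (q i) p : ℝ) * (q i).totient ≤ C / ε * (x / Real.log x)) ∧
  ∃ B : Finset ℕ, (B.card : ℝ) ≤ C / (ε ^ 2 * η ^ 2) ∧
    ∀ i i' : ℕ, i ≤ i' → i' ≤ r → (∀ k ∈ B, k ≤ i ∨ i' < k) →
      |(primeCount x (q r) (q i') p : ℝ) * (q i').totient -
          primeCount x (q r) (q i) p * (q i).totient| ≤
        η * (primeCount x (q r) (q i) p * (q i).totient)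

/-- **Primes along divisor chains of moduli up to `x / log x`.** There is an absolute constant `C` such
that for all `x ≥ 2`, all chains of moduli `q 0 ∣ q 1 ∣ ...` and all `r` with `φ(q r) log x ≤ x`, all
`0 < ε ≤ 1`, `0 < η ≤ 1`: all but at most `ε x / log x` of the primes `p ≤ x` not dividing `q r`
satisfy `Regular C x q r ε η p`. -/
theorem result : ∃ C : ℝ, 0 < C ∧ ∀ x : ℕ, 2 ≤ x → ∀ (q : ℕ → ℕ) (r : ℕ), (∀ i, q i ∣ q (i + 1)) →
    0 < q r → ((q r).totient : ℝ) * Real.log x ≤ x → ∀ ε η : ℝ, 0 < ε → ε ≤ 1 → 0 < η → η ≤ 1 →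
    ({p : ℕ | p.Prime ∧ p ≤ x ∧ ¬ p ∣ q r ∧ ¬ Regular C x q r ε η p}.ncard : ℝ) ≤
      ε * (x / Real.log x) := by
  classical
  obtain ⟨C, hC, h⟩ := Pool.Agent.NH18.SC.AP.mainAP Pool.Agent.NH18.SC.t_maxL Pool.Agent.NH18.SC.t_maxU
    Pool.Agent.NH18.SC.t_jump Pool.Agent.NH18.SC.t_apbase Pool.Agent.NH18.SC.t_apfib
  refine ⟨C, hC, fun x hx q r hq hr hφ ε η hε hε1 hη hη1 => ?_⟩
  have h1 := h x hx q r hq hr hφ ε hε hε1 η hη hη1
  refine le_trans (le_of_eq ?_) h1
  norm_cast
  rw [← Set.ncard_coe_finset]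
  congr 1
  ext p
  simp only [Finset.coe_filter, Finset.mem_Icc, Set.mem_ofPred_eq]
  constructor
  · rintro ⟨h1, h2, h3, h4⟩
    exact ⟨⟨h1.one_lt.le, h2⟩, h1, (Nat.Prime.coprime_iff_not_dvd h1).2 h3, h4⟩
  · rintro ⟨⟨_, h2⟩, h1, h3, h4⟩
    exact ⟨h1, h2, (Nat.Prime.coprime_iff_not_dvd h1).1 h3, h4⟩

end Pool.Agent.Results.MP_848d44_nt.DivisorChains
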