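import Pool.Agent.NH13.WV.Fin

/-!
# The variance of primes in the classes of one modulus and the pair correlation of zeros

No hypothesis is assumed. `W q a b` is the logarithmic mean of `V(x, q) / (x log q)` over
`q ^ a ≤ x ≤ q ^ b`. As `q → ∞` through all integers, the asymptotic formula `W q a b → 1` for all
`1 ≤ a < b` is equivalent to the generalized Riemann hypothesis together with the pair correlation
conjecture for the zeros of all the `L(s, χ)`, `χ` nonprincipal modulo `q`, at the scale of the mean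
spacing `2 π / log q`; here the upper half of the pair correlation conjecture (for all `A`) suffices, and so
does the lower half.
-/

set_option autoImplicit false

open MeasureTheory Filter Topology Set

namespace Pool.Agent.Results.MP_848d44_nt.PairCorrelation

/-! ### primes -/

/-- `ψ(x, q, a)`, the sum of `Λ(n)` over the positive integers `n ≤ x` with `n ≡ a mod q`
(used for `0 ≤ a < q`) -/
noncomputable def psiAP (x : ℝ) (q a : ℕ) : ℝ :=
  ∑ n ∈ (Finset.Icc 1 ⌊x⌋₊).filter (fun n => n % q = a), ArithmeticFunction.vonMangoldt n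

/-- the sum of `(ψ(x, q, a) - x / φ(q))²` over the residues `a` prime to `q` -/
noncomputable def V (x : ℝ) (q : ℕ) : ℝ :=
  ∑ a ∈ (Finset.range q).filter (fun a => a.Coprime q), (psiAP x q a - x / q.totient) ^ 2

/-- the mean of `V(x, q) / (x log q)` over `q ^ a ≤ x ≤ q ^ b` with respect to `dx / x`:
`(1 / ((b - a) log q)) ∫ V(x, q) / (x log q) dx / x` -/
noncomputable def W (q : ℕ) (a b : ℝ) : ℝ :=
  (∫ x in ((q : ℝ) ^ a)..((q : ℝ) ^ b), V x q / x ^ 2) / ((b - a) * Real.log q ^ 2)

/-- the asymptotic formula in all windows beyond `q` -/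
def Asymptotic : Prop := ∀ a b : ℝ, 1 ≤ a → a < b → Tendsto (fun q : ℕ => W q a b) atTop (𝓝 1)

/-! ### zeros -/

/-- the generalized Riemann hypothesis: no Dirichlet `L`-function has a zero with `Re s > 1/2`
(`s = 1` is left out because of the pole for the principal characters) -/
def GRH : Prop := ∀ (q : ℕ) [NeZero q] (χ : DirichletCharacter ℂ q) (s : ℂ),
  1 / 2 < s.re → s ≠ 1 → DirichletCharacter.LFunction χ s ≠ 0

/-- the zeros of `L(s, χ)` with `0 < Re s < 1` -/
def zeros {q : ℕ} [NeZero q] (χ : DirichletCharacter ℂ q) : Set ℂ :=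
  {s : ℂ | DirichletCharacter.LFunction χ s = 0 ∧ 0 < s.re ∧ s.re < 1}

/-- the multiplicity of a zero -/
noncomputable def mult {q : ℕ} [NeZero q] (χ : DirichletCharacter ℂ q) (s : ℂ) : ℕ :=
  analyticOrderNatAt (DirichletCharacter.LFunction χ) s

/-- the number of zeros, with multiplicity, with `|Im s - t| ≤ d` -/
noncomputable def near {q : ℕ} [NeZero q] (χ : DirichletCharacter ℂ q) (d t : ℝ) : ℕ :=
  ∑ᶠ s ∈ {s : ℂ | s ∈ zeros χ ∧ |s.im - t| ≤ d}, mult χ s

/-- the number of pairs of zeros `s, s'`, with multiplicity, with `|Im s - Im s'| ≤ d`, each pair with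
the weight `1 / (1/4 + (Im s)²)`; the pairs `(s, s)` are included -/
noncomputable def pairs {q : ℕ} [NeZero q] (χ : DirichletCharacter ℂ q) (d : ℝ) : ℝ :=
  ∑' s : zeros χ, (mult χ s : ℝ) * (near χ d (s : ℂ).im : ℝ) / (1 / 4 + (s : ℂ).im ^ 2)

/-- the nonprincipal characters modulo `q` -/
noncomputable def nonprincipal (q : ℕ) [NeZero q] : Finset (DirichletCharacter ℂ q) := by
  classical exact Finset.univ.filter (fun χ => χ ≠ 1)

/-- the number of pairs for the modulus `q` at the scale `A / log q`, divided by `φ(q) log q` -/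
noncomputable def N (q : ℕ) [NeZero q] (A : ℝ) : ℝ :=
  1 / (Real.log q * q.totient) * ∑ χ ∈ nonprincipal q, pairs χ (A / Real.log q)

/-- the pair correlation function of the eigenvalues of large random unitary matrices, integrated
(`v = 2 π u`, `u` in units of the mean spacing); the `1` counts the pairs `(s, s)` -/
noncomputable def limit (A : ℝ) : ℝ :=
  1 + 1 / Real.pi * ∫ v in (0 : ℝ)..A, (1 - (Real.sin (v / 2) / (v / 2)) ^ 2)

/-- the pair correlation conjecture for the `L`-functions modulo `q`, `q → ∞` -/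
def PairCorrelation : Prop := ∀ A ε : ℝ, 0 < A → 0 < ε → ∃ q0 : ℕ, ∀ (q : ℕ) [NeZero q], q0 ≤ q →
  |N q A - limit A| ≤ ε

/-- its upper half -/
def UpperHalf : Prop := ∀ A ε : ℝ, 0 < A → 0 < ε → ∃ q0 : ℕ, ∀ (q : ℕ) [NeZero q], q0 ≤ q →
  N q A ≤ limit A + ε

/-- its lower half -/
def LowerHalf : Prop := ∀ A ε : ℝ, 0 < A → 0 < ε → ∃ q0 : ℕ, ∀ (q : ℕ) [NeZero q], q0 ≤ q →
  limit A - ε ≤ N q A

theorem result : (Asymptotic ↔ GRH ∧ PairCorrelation) ∧ (Asymptotic ↔ GRH ∧ UpperHalf) ∧
    (Asymptotic ↔ GRH ∧ LowerHalf) := Pool.Agent.NH13.WV.Fin.all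

end Pool.Agent.Results.MP_848d44_nt.PairCorrelation
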