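import Pool.Agent.NH13.Final2

/-!
# Montgomery's conjecture: the lower bound of the conjectured order for every modulus

For every large modulus and in every window of the variable, the mean square of the error terms
over the reduced classes is at least a constant times its conjectured size `x log q`.
No hypothesis is assumed.
-/

set_option autoImplicit false

open MeasureTheory Set

namespace Pool.Agent.Results.MP_848d44_nt.TrueOrderEveryModulus

/-- `ψ(x, q, a)`, the sum of `Λ(n)` over the positive integers `n ≤ x` with `n ≡ a mod q`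
(used for `0 ≤ a < q`) -/
noncomputable def psiAP (x : ℝ) (q a : ℕ) : ℝ :=
  ∑ n ∈ (Finset.Icc 1 ⌊x⌋₊).filter (fun n => n % q = a), ArithmeticFunction.vonMangoldt n

/-- the sum of `(ψ(x, q, a) - x / φ(q))²` over the residues `a` prime to `q` -/
noncomputable def V (x : ℝ) (q : ℕ) : ℝ :=
  ∑ a ∈ (Finset.range q).filter (fun a => a.Coprime q), (psiAP x q a - x / q.totient) ^ 2

/-- For all positive `A` and `δ` there are `c > 0` and `q₀` such that for every modulus `q ≥ q₀`
and every real `X` with `1 ≤ X ≤ q ^ A`: the integral of `V(x, q) / x²` over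
`X < x ≤ X q ^ (1 + δ)` is at least `c (log q)²`, and there is a point `x` in that window with
`V(x, q) ≥ c x log q` and with a reduced class `a` modulo `q` such that
`|ψ(x, q, a) - x / φ(q)| ≥ c √(x log q / φ(q))`. -/
theorem result (A δ : ℝ) (hA : 0 < A) (hδ : 0 < δ) : ∃ c : ℝ, 0 < c ∧ ∃ q₀ : ℕ, ∀ q : ℕ,
    q₀ ≤ q → ∀ X : ℝ, 1 ≤ X → X ≤ (q : ℝ) ^ A →
    c * Real.log q ^ 2 ≤ (∫ x in Ioc X (X * (q : ℝ) ^ (1 + δ)), V x q / x ^ 2) ∧
    ∃ x ∈ Ioc X (X * (q : ℝ) ^ (1 + δ)), c * x * Real.log q ≤ V x q ∧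
      ∃ a : ℕ, a < q ∧ a.Coprime q ∧
        c * Real.sqrt (x * Real.log q / q.totient) ≤ |psiAP x q a - x / q.totient| :=
  Pool.Agent.NH13.sharp_classes A δ hA hδ

end Pool.Agent.Results.MP_848d44_nt.TrueOrderEveryModulus
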