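import Pool.Agent.NH13.UV.Fin2

/-!
# The variance of primes in the classes of one modulus: the upper bound suffices

No hypothesis is assumed. `W q a b` is the logarithmic mean of `V(x, q) / (x log q)` over
`q ^ a ≤ x ≤ q ^ b`, `M q δ` the Abel mean over all `x ≥ 1`. As `q → ∞` through all integers, the
asymptotic formula `W q a b → 1` for all `1 ≤ a < b`, the upper bound `limsup W q a b ≤ 1` for all
`1 ≤ a < b`, and the asymptotic formula for the Abel means are equivalent, and each implies the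
generalized Riemann hypothesis for all Dirichlet `L`-functions.
-/

set_option autoImplicit false

open MeasureTheory Filter Topology Set

namespace Pool.Agent.Results.MP_848d44_nt.UpperBoundSuffices

/-- `ψ(x, q, a)`, the sum of `Λ(n)` over the positive integers `n ≤ x` with `n ≡ a mod q`
(used for `0 ≤ a < q`) -/
noncomputable def psiAP (x : ℝ) (q a : ℕ) : ℝ :=
  ∑ n ∈ (Finset.Icc 1 ⌊x⌋₊).filter (fun n => n % q = a), ArithmeticFunction.vonMangoldt n

/-- the sum of `(ψ(x, q, a) - x / φ(q))²` over the residues `a` prime to `q` -/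
noncomputable def V (x : ℝ) (q : ℕ) : ℝ :=
  ∑ a ∈ (Finset.range q).filter (fun a => a.Coprime q), (psiAP x q a - x / q.totient) ^ 2

/-- the mean of `V(x, q) / (x log q)` over `q ^ a ≤ x ≤ q ^ b` with respect to `dx / x`:
`(1 / ((b - a) log q)) ∫ V(x, q) / (x log q) dx / x` -/
noncomputable def W (q : ℕ) (a b : ℝ) : ℝ :=
  (∫ x in ((q : ℝ) ^ a)..((q : ℝ) ^ b), V x q / x ^ 2) / ((b - a) * Real.log q ^ 2)

/-- the mean of `V(x, q) / (x log q)` over `x ≥ 1` with respect to
`(2δ / log q) x ^ (-2δ / log q) dx / x`, a measure of total mass `1`; possibly infinite -/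
noncomputable def M (q : ℕ) (δ : ℝ) : ENNReal :=
  ENNReal.ofReal (2 * δ) * ((∫⁻ x in Ioi (1 : ℝ), ENNReal.ofReal (V x q *
    x ^ (-2 - 2 * δ / Real.log q))) / ENNReal.ofReal (Real.log q ^ 2))

/-- the asymptotic formula in all windows beyond `q` -/
def Asymptotic : Prop := ∀ a b : ℝ, 1 ≤ a → a < b → Tendsto (fun q : ℕ => W q a b) atTop (𝓝 1)

/-- its upper half -/
def UpperBound : Prop := ∀ a b : ℝ, 1 ≤ a → a < b → ∀ ε : ℝ, 0 < ε →
  ∀ᶠ q : ℕ in atTop, W q a b ≤ 1 + ε

/-- the asymptotic formula for the Abel means -/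
def AbelAsymptotic : Prop := ∀ δ : ℝ, 0 < δ → Tendsto (fun q : ℕ => M q δ) atTop
  (𝓝 (ENNReal.ofReal ((1 - Real.exp (-2 * δ)) / (2 * δ))))

/-- the generalized Riemann hypothesis: no Dirichlet `L`-function has a zero with `Re s > 1/2`
(`s = 1` is left out because of the pole for the principal characters) -/
def GRH : Prop := ∀ (q : ℕ) [NeZero q] (χ : DirichletCharacter ℂ q) (s : ℂ),
  1 / 2 < s.re → s ≠ 1 → DirichletCharacter.LFunction χ s ≠ 0

theorem result : (Asymptotic ↔ UpperBound) ∧ (Asymptotic ↔ AbelAsymptotic) ∧ (Asymptotic → GRH) :=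
  Pool.Agent.NH13.UV.Fin2.main.2

end Pool.Agent.Results.MP_848d44_nt.UpperBoundSuffices
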